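import Pool.Agent.T6.H48.Cusp.Entire

set_option autoImplicit false

/-!
# The Lavaurs function at the cusp of the Mandelbrot set: its real part

`lav_real`: the function `L` of `lav` maps the real line onto `(1 / 2, ∞)` by an increasing
homeomorphism.
-/

namespace Pool.Agent.T6.H48.Cusp

open Filter Topology Set

theorem ep_mono {a b : ℝ} {N : ℕ} (hab : a ≤ b) (hb : b < N) : ep a N ≤ ep b N := by
  unfold ep
  exact div_le_div_of_nonneg_left Real.pi_pos.le (by linarith) (by linarith)

theorem ep_nonneg {a : ℝ} {N : ℕ} (hb : a < N) : 0 ≤ ep a N := by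
  unfold ep
  exact div_nonneg Real.pi_pos.le (by linarith)

/-- the Lavaurs function with all its real properties -/
theorem lav_real : ∃ (L : ℂ → ℂ) (l : ℝ → ℝ), Differentiable ℂ L ∧
    (∀ s, L (s + 1) = L s ^ 2 + 1 / 4) ∧
    (∀ x : ℝ, L x = l x) ∧ (∀ x, 1 / 2 < l x) ∧ (∀ x, l (x + 1) = l x ^ 2 + 1 / 4) ∧
    Continuous l ∧ StrictMono l ∧ Tendsto l atBot (𝓝 (1 / 2)) ∧ Tendsto l atTop atTop ∧
    TendstoLocallyUniformly (fun (N : ℕ) (s : ℂ) => Pool.Agent.H712R2.P 2 N
      (1 / 4 + (Real.pi : ℂ) ^ 2 / ((N : ℂ) - s) ^ 2)) L atTop := by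
  obtain ⟨L, hL1, hL2, hL3, hL4⟩ := lav
  choose l hl1 hl2 using hL3
  have hfe : ∀ x, l (x + 1) = l x ^ 2 + 1 / 4 := by
    intro x
    have h1 := hL2 (x : ℂ)
    have h2 := hl2 (x + 1)
    push_cast at h2
    rw [h2, hl2 x] at h1
    have h3 : ((l (x + 1) : ℝ) : ℂ) = ((l x ^ 2 + 1 / 4 : ℝ) : ℂ) := by
      rw [h1]; push_cast; ring
    exact Complex.ofReal_injective h3
  have hcont : Continuous l := by
    have h1 : l = fun x : ℝ => (L (x : ℂ)).re := by
      funext x
      rw [hl2 x, Complex.ofReal_re]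
    rw [h1]
    exact Complex.continuous_re.comp (hL1.continuous.comp Complex.continuous_ofReal)
  have hlim : ∀ x : ℝ, Tendsto (fun N : ℕ => U (ep x N ^ 2) N + 1 / 2) atTop (𝓝 (l x)) := by
    intro x
    have h1 := (hL4.tendstoLocallyUniformlyOn (s := univ)).tendsto_at (mem_univ (x : ℂ))
    have h2 : Tendsto (fun N : ℕ => (FN N (x : ℂ)).re) atTop (𝓝 (L x).re) :=
      (Complex.continuous_re.tendsto _).comp h1
    rw [hl2 x, Complex.ofReal_re] at h2
    refine h2.congr fun N => ?_
    rw [FN_real, Complex.ofReal_re]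
  have hmono : Monotone l := by
    intro a b hab
    obtain ⟨n, hn⟩ := exists_nat_gt b
    refine le_of_tendsto_of_tendsto (hlim a) (hlim b) ?_
    filter_upwards [eventually_ge_atTop n] with N hN
    have h1 : b < N := lt_of_lt_of_le hn (by exact_mod_cast hN)
    have h2 := ep_nonneg (lt_of_le_of_lt hab h1)
    have h3 := ep_mono hab h1
    have h4 := U_mono_e (sq_nonneg (ep a N)) (pow_le_pow_left₀ h2 h3 2) N
    linarith
  have hstrict : StrictMono l := by
    intro a b hab
    rcases lt_or_eq_of_le (hmono hab.le) with h | h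
    · exact h
    · exfalso
      -- `l` is constant on `[a, b]`
      have hc : ∀ x ∈ Icc a b, l x = l a := by
        intro x hx
        exact le_antisymm ((hmono hx.2).trans h.ge) (hmono hx.1)
      have hA : AnalyticOnNhd ℂ L univ := hL1.differentiableOn.analyticOnNhd isOpen_univ
      have hB : AnalyticOnNhd ℂ (fun _ : ℂ => L a) univ := analyticOnNhd_const
      have hfreq : ∃ᶠ z in 𝓝[≠] (((a + b) / 2 : ℝ) : ℂ), L z = L a := by
        have hfr : ∃ᶠ x : ℝ in 𝓝[≠] ((a + b) / 2), L (x : ℂ) = L a := by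
          apply Eventually.frequently
          have h1 : ∀ᶠ x : ℝ in 𝓝 ((a + b) / 2), x ∈ Ioo a b :=
            Ioo_mem_nhds (by linarith) (by linarith)
          filter_upwards [h1.filter_mono nhdsWithin_le_nhds] with x hx
          rw [hl2 x, hl2 a, hc x ⟨hx.1.le, hx.2.le⟩]
        have ht : Tendsto (fun x : ℝ => (x : ℂ)) (𝓝[≠] ((a + b) / 2))
            (𝓝[≠] (((a + b) / 2 : ℝ) : ℂ)) := by
          apply tendsto_nhdsWithin_of_tendsto_nhds_of_eventually_within
          · exact (Complex.continuous_ofReal.tendsto _).mono_left nhdsWithin_le_nhds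
          · filter_upwards [self_mem_nhdsWithin] with x hx
            intro h2
            exact hx (Complex.ofReal_injective h2)
        exact ht.frequently hfr
      have hEq := hA.eqOn_of_preconnected_of_frequently_eq hB isPreconnected_univ
        (mem_univ _) hfreq
      have h1 : L ((a : ℂ) + 1) = L a := hEq (mem_univ _)
      have h2 := hL2 (a : ℂ)
      rw [h1, hl2 a] at h2
      have h3 : l a = l a ^ 2 + 1 / 4 := by
        apply Complex.ofReal_injective
        rw [h2]; push_cast; ring
      have h4 := hl1 a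
      nlinarith [sq_nonneg (l a - 1 / 2)]
  have hstep : ∀ x, l x < l (x + 1) := fun x => hstrict (by linarith)
  have htop : Tendsto l atTop atTop := by
    rcases tendsto_atTop_of_monotone hmono with h | ⟨c, hc⟩
    · exact h
    · exfalso
      have h1 : Tendsto (fun x => l (x + 1)) atTop (𝓝 c) :=
        hc.comp (tendsto_atTop_add_const_right _ 1 tendsto_id)
      have h2 : Tendsto (fun x => l (x + 1)) atTop (𝓝 (c ^ 2 + 1 / 4)) := by
        refine ((hc.pow 2).add_const (1 / 4)).congr fun x => (hfe x).symm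
      have h3 := tendsto_nhds_unique h1 h2
      have h4 : c = 1 / 2 := by nlinarith [sq_nonneg (c - 1 / 2)]
      have h5 : l 0 ≤ c := hmono.ge_of_tendsto hc 0
      have := hl1 0
      linarith
  have hbot : Tendsto l atBot (𝓝 (1 / 2)) := by
    rcases tendsto_atBot_of_monotone hmono with h | ⟨c, hc⟩
    · exfalso
      obtain ⟨x, hx⟩ := (h.eventually (eventually_lt_atBot (1 / 2))).exists
      have := hl1 x
      linarith
    · have h1 : Tendsto (fun x => l (x + 1)) atBot (𝓝 c) :=
        hc.comp (tendsto_atBot_add_const_right _ 1 tendsto_id)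
      have h2 : Tendsto (fun x => l (x + 1)) atBot (𝓝 (c ^ 2 + 1 / 4)) := by
        refine ((hc.pow 2).add_const (1 / 4)).congr fun x => (hfe x).symm
      have h3 := tendsto_nhds_unique h1 h2
      have h4 : c = 1 / 2 := by nlinarith [sq_nonneg (c - 1 / 2)]
      rw [← h4]
      exact hc
  exact ⟨L, l, hL1, hL2, hl2, hl1, hfe, hcont, hstrict, hbot, htop, hL4⟩

end Pool.Agent.T6.H48.Cusp
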