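import Pool.Agent.T6.H48.Cusp.Limit
import Pool.Agent.H712R2.MultiBott
import Pool.Agent.Helper118.Yud.G2

set_option autoImplicit false

/-!
# The Lavaurs function at the cusp of the Mandelbrot set

The functions `s ↦ P_N (1 / 4 + π ^ 2 / (N - s) ^ 2)`, `P_N (c) = f_c ^ N (0)`, converge locally
uniformly on `ℂ` to an entire function `L` with `L (s + 1) = L (s) ^ 2 + 1 / 4`.
-/

namespace Pool.Agent.T6.H48.Cusp

open Filter Topology Set

/-- the library's critical orbit in the real coordinate `u` -/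
theorem P_real (e : ℝ) (k : ℕ) :
    Pool.Agent.H712R2.P 2 k (((1 / 4 + e : ℝ) : ℂ)) = ((U e k + 1 / 2 : ℝ) : ℂ) := by
  induction k with
  | zero =>
    rw [Pool.Agent.H712R2.P_zero, U_zero]
    norm_num
  | succ k ih =>
    rw [Pool.Agent.H712R2.P_succ, ih, U_succ]
    push_cast
    ring

/-- the coefficients of the critical orbit about `1 / 4` are nonnegative -/
theorem norm_P_le (h : ℂ) (k : ℕ) :
    ‖Pool.Agent.H712R2.P 2 k (1 / 4 + h)‖ ≤ U ‖h‖ k + 1 / 2 := by
  induction k with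
  | zero =>
    rw [Pool.Agent.H712R2.P_zero, U_zero]
    norm_num
  | succ k ih =>
    rw [Pool.Agent.H712R2.P_succ, U_succ]
    have h1 : ‖Pool.Agent.H712R2.P 2 k (1 / 4 + h) ^ 2 + (1 / 4 + h)‖ ≤
        ‖Pool.Agent.H712R2.P 2 k (1 / 4 + h)‖ ^ 2 + (1 / 4 + ‖h‖) := by
      refine (norm_add_le _ _).trans ?_
      rw [norm_pow]
      have h2 : ‖(1 / 4 : ℂ) + h‖ ≤ 1 / 4 + ‖h‖ := by
        refine (norm_add_le _ _).trans ?_
        norm_num
      linarith
    have h3 := norm_nonneg (Pool.Agent.H712R2.P 2 k (1 / 4 + h))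
    nlinarith

/-- the critical orbit at the time `N` near the cusp -/
noncomputable def FN (N : ℕ) (s : ℂ) : ℂ :=
  Pool.Agent.H712R2.P 2 N (1 / 4 + (Real.pi : ℂ) ^ 2 / ((N : ℂ) - s) ^ 2)

theorem P_differentiable (k : ℕ) : Differentiable ℂ (Pool.Agent.H712R2.P 2 k) := by
  induction k with
  | zero =>
    have : Pool.Agent.H712R2.P 2 0 = fun _ => 0 := by
      funext c; exact Pool.Agent.H712R2.P_zero 2 c
    rw [this]
    exact differentiable_const _
  | succ k ih =>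
    have : Pool.Agent.H712R2.P 2 (k + 1) = fun c => (Pool.Agent.H712R2.P 2 k c) ^ 2 + c := by
      funext c; exact Pool.Agent.H712R2.P_succ 2 k c
    rw [this]
    exact (ih.pow 2).add differentiable_id

theorem ne_of_ball {r : ℝ} {N : ℕ} (hN : r < N) {s : ℂ} (hs : ‖s‖ < r) : (N : ℂ) - s ≠ 0 := by
  intro h
  have h1 : s = N := by linear_combination -h
  rw [h1, Complex.norm_natCast] at hs
  linarith

theorem FN_differentiableOn {r : ℝ} {N : ℕ} (hN : r < N) :
    DifferentiableOn ℂ (FN N) (Metric.ball 0 r) := by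
  intro s hs
  rw [mem_ball_zero_iff] at hs
  have h1 := ne_of_ball hN hs
  apply DifferentiableAt.differentiableWithinAt
  unfold FN
  apply (P_differentiable N).differentiableAt.comp
  apply DifferentiableAt.const_add
  apply DifferentiableAt.div
  · exact differentiableAt_const _
  · exact ((differentiableAt_const _).sub differentiableAt_id).pow 2
  · exact pow_ne_zero 2 h1

theorem FN_real (N : ℕ) (t : ℝ) : FN N (t : ℂ) = ((U (ep t N ^ 2) N + 1 / 2 : ℝ) : ℂ) := by
  rw [← P_real]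
  unfold FN ep
  congr 1
  push_cast
  rw [div_pow]

theorem FN_bound {r : ℝ} {N : ℕ} (hN : r < N) {s : ℂ} (hs : ‖s‖ < r) :
    ‖FN N s‖ ≤ U (ep r N ^ 2) N + 1 / 2 := by
  unfold FN
  refine (norm_P_le _ N).trans ?_
  have h1 : 0 < (N : ℝ) - r := by linarith
  have h2 : (N : ℝ) - r ≤ ‖(N : ℂ) - s‖ := by
    have := norm_sub_norm_le (N : ℂ) s
    rw [Complex.norm_natCast] at this
    linarith
  have h3 : ‖(Real.pi : ℂ) ^ 2 / ((N : ℂ) - s) ^ 2‖ ≤ ep r N ^ 2 := by
    rw [norm_div, norm_pow, norm_pow, Complex.norm_real, Real.norm_of_nonneg Real.pi_pos.le,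
      ← div_pow]
    unfold ep
    apply pow_le_pow_left₀ (by positivity)
    exact div_le_div_of_nonneg_left Real.pi_pos.le h1 h2
  have := U_mono_e (norm_nonneg _) h3 N
  linarith

/-- the limit on a disc -/
theorem disc_limit {r : ℝ} (hr : 0 < r) : ∃ G : ℂ → ℂ, DifferentiableOn ℂ G (Metric.ball 0 r) ∧
    TendstoLocallyUniformlyOn FN G atTop (Metric.ball 0 r) := by
  obtain ⟨B, -, hB⟩ := bounded r
  obtain ⟨n1, hn1⟩ := exists_nat_gt r
  obtain ⟨N0, hN0⟩ := eventually_atTop.1 (hB.and (eventually_ge_atTop n1))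
  have hNr : ∀ n : ℕ, r < ((n + N0 : ℕ) : ℝ) := by
    intro n
    have h1 := (hN0 (n + N0) (by omega)).2
    have : (n1 : ℝ) ≤ ((n + N0 : ℕ) : ℝ) := by exact_mod_cast h1
    linarith
  choose l hl0 hl using real_limit
  obtain ⟨G, hG1, -, -, hG2⟩ := Pool.Agent.Helper118.Yud.vitali_real r (B + 1 / 2) hr
    (fun n => FN (n + N0)) (fun n => FN_differentiableOn (hNr n))
    (fun n z hz => (FN_bound (hNr n) (mem_ball_zero_iff.1 hz)).trans (by
      have := (hN0 (n + N0) (by omega)).1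
      linarith))
    (fun t => ((l t + 1 / 2 : ℝ) : ℂ)) (fun t _ => by
      have h1 : Tendsto (fun N : ℕ => ((U (ep t N ^ 2) N + 1 / 2 : ℝ) : ℂ)) atTop
          (𝓝 ((l t + 1 / 2 : ℝ) : ℂ)) :=
        (Complex.continuous_ofReal.tendsto _).comp ((hl t).add_const (1 / 2))
      have h2 := (tendsto_add_atTop_iff_nat N0).2 h1
      refine h2.congr fun n => ?_
      exact (FN_real (n + N0) t).symm)
  refine ⟨G, hG1, ?_⟩
  intro u hu x hx
  obtain ⟨t, ht, h1⟩ := hG2 u hu x hx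
  refine ⟨t, ht, ?_⟩
  rw [← Filter.map_add_atTop_eq_nat N0]
  exact h1

/-- **the Lavaurs function** -/
theorem lav : ∃ L : ℂ → ℂ, Differentiable ℂ L ∧ (∀ s, L (s + 1) = L s ^ 2 + 1 / 4) ∧
    (∀ x : ℝ, ∃ y : ℝ, 1 / 2 < y ∧ L x = y) ∧
    TendstoLocallyUniformly (fun (N : ℕ) (s : ℂ) => Pool.Agent.H712R2.P 2 N
      (1 / 4 + (Real.pi : ℂ) ^ 2 / ((N : ℂ) - s) ^ 2)) L atTop := by
  have hex : ∀ r : ℝ, ∃ G : ℂ → ℂ, 0 < r → DifferentiableOn ℂ G (Metric.ball 0 r) ∧
      TendstoLocallyUniformlyOn FN G atTop (Metric.ball 0 r) := by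
    intro r
    by_cases hr : 0 < r
    · obtain ⟨G, hG⟩ := disc_limit hr
      exact ⟨G, fun _ => hG⟩
    · exact ⟨0, fun h => absurd h hr⟩
  choose G hG using hex
  have hrs : ∀ s : ℂ, 0 < ‖s‖ + 1 := fun s => by positivity
  have hms : ∀ s : ℂ, s ∈ Metric.ball (0 : ℂ) (‖s‖ + 1) := fun s => by
    rw [mem_ball_zero_iff]; linarith
  obtain ⟨L, hL⟩ : ∃ L : ℂ → ℂ, ∀ s, L s = G (‖s‖ + 1) s := ⟨fun s => G (‖s‖ + 1) s, fun s => rfl⟩
  have hpt : ∀ s, Tendsto (fun N => FN N s) atTop (𝓝 (L s)) := by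
    intro s
    rw [hL]
    exact (hG (‖s‖ + 1) (hrs s)).2.tendsto_at (hms s)
  have hLG : ∀ r : ℝ, 0 < r → ∀ s ∈ Metric.ball (0 : ℂ) r, G r s = L s := by
    intro r hr s hs
    exact tendsto_nhds_unique ((hG r hr).2.tendsto_at hs) (hpt s)
  have hLd : Differentiable ℂ L := by
    intro s
    have h1 := (hG (‖s‖ + 1) (hrs s)).1.differentiableAt (Metric.isOpen_ball.mem_nhds (hms s))
    refine h1.congr_of_eventuallyEq ?_
    filter_upwards [Metric.isOpen_ball.mem_nhds (hms s)] with z hz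
    exact (hLG _ (hrs s) z hz).symm
  have hunif : TendstoLocallyUniformly FN L atTop := by
    intro u hu x
    obtain ⟨t, ht, h1⟩ := (hG (‖x‖ + 1) (hrs x)).2 u hu x (hms x)
    refine ⟨t ∩ Metric.ball 0 (‖x‖ + 1), ?_, ?_⟩
    · refine inter_mem ?_ (Metric.isOpen_ball.mem_nhds (hms x))
      rwa [Metric.isOpen_ball.nhdsWithin_eq (hms x)] at ht
    · filter_upwards [h1] with N hN y hy
      rw [← hLG _ (hrs x) y hy.2]
      exact hN y hy.1
  refine ⟨L, hLd, fun s => ?_, fun x => ?_, hunif⟩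
  · have h1 : Tendsto (fun N : ℕ => FN (N + 1) (s + 1)) atTop (𝓝 (L (s + 1))) :=
      (tendsto_add_atTop_iff_nat 1).2 (hpt (s + 1))
    have h2 : ∀ N : ℕ, FN (N + 1) (s + 1) = FN N s ^ 2 +
        (1 / 4 + (Real.pi : ℂ) ^ 2 / ((N : ℂ) - s) ^ 2) := by
      intro N
      have h3 : ((N + 1 : ℕ) : ℂ) - (s + 1) = (N : ℂ) - s := by push_cast; ring
      unfold FN
      rw [h3, Pool.Agent.H712R2.P_succ]
    have h4 : Tendsto (fun N : ℕ => (Real.pi : ℂ) ^ 2 / ((N : ℂ) - s) ^ 2) atTop (𝓝 0) := by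
      have h5 : Tendsto (fun N : ℕ => (N : ℂ) - s) atTop (Bornology.cobounded ℂ) := by
        have h6 : Tendsto (fun N : ℕ => (N : ℂ)) atTop (Bornology.cobounded ℂ) := by
          rw [← tendsto_norm_atTop_iff_cobounded]
          simp only [Complex.norm_natCast]
          exact tendsto_natCast_atTop_atTop
        rw [← tendsto_norm_atTop_iff_cobounded] at h6 ⊢
        refine tendsto_atTop_mono (fun N => norm_sub_norm_le (N : ℂ) s) ?_
        exact tendsto_atTop_add_const_right _ _ h6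
      have h7 := (tendsto_inv₀_cobounded (α := ℂ)).comp h5
      have h8 := (h7.pow 2).const_mul ((Real.pi : ℂ) ^ 2)
      simp only [ne_eq, OfNat.ofNat_ne_zero, not_false_eq_true, zero_pow, mul_zero] at h8
      refine h8.congr fun N => ?_
      simp only [Function.comp_apply, inv_pow, div_eq_mul_inv]
    have h9 : Tendsto (fun N : ℕ => FN (N + 1) (s + 1)) atTop (𝓝 (L s ^ 2 + (1 / 4 + 0))) := by
      simp only [h2]
      exact ((hpt s).pow 2).add (h4.const_add (1 / 4))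
    rw [add_zero] at h9
    exact tendsto_nhds_unique h1 h9
  · obtain ⟨l, hl0, hl⟩ := real_limit x
    refine ⟨l + 1 / 2, by linarith, ?_⟩
    refine tendsto_nhds_unique (hpt x) ?_
    simp only [FN_real]
    exact (Complex.continuous_ofReal.tendsto _).comp (hl.add_const (1 / 2))

end Pool.Agent.T6.H48.Cusp
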