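import Pool.Agent.T6.H48.Cusp.Real

set_option autoImplicit false

/-!
# The real Lavaurs limit at the cusp of the Mandelbrot set: convergence
-/

namespace Pool.Agent.T6.H48.Cusp

open Filter Topology Set Real

theorem sq_mono {u v : ℝ} (hu : -1 / 2 ≤ u) (h : u ≤ v) : u + u ^ 2 ≤ v + v ^ 2 := by nlinarith

/-- the first passage over `δ` -/
theorem passage {δ ε : ℝ} (hδ : 0 < δ) (hδ8 : δ ≤ 1 / 8) (hε : 0 < ε) (hεδ : ε ^ 2 ≤ δ ^ 3 / 2) :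
    ∃ K : ℕ, 1 ≤ K ∧ (∀ i < K, U (ε ^ 2) i < δ) ∧ δ ≤ U (ε ^ 2) K ∧ U (ε ^ 2) K ≤ 2 * δ ∧
      π / ε - K ≤ 1 / δ + log (1 / δ) + 11 ∧ 1 / (2 * δ) - 6 ≤ π / ε - K := by
  classical
  have hε2 : 0 < ε ^ 2 := by positivity
  have hδ3 : δ ^ 3 ≤ 1 / 512 := by
    have : δ ^ 3 ≤ (1 / 8) ^ 3 := pow_le_pow_left₀ hδ.le hδ8 3
    norm_num at this ⊢
    exact this
  have hε10 : ε ^ 2 ≤ 1 / 1024 := by linarith
  have hε4 : ε ≤ 1 / 4 := by nlinarith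
  have hex : ∃ k, δ ≤ U (ε ^ 2) k := by
    obtain ⟨k, hk⟩ := exists_nat_ge ((δ + 1 / 2) / ε ^ 2)
    refine ⟨k, ?_⟩
    have h1 := U_lin hε2.le k
    rw [div_le_iff₀ hε2] at hk
    linarith
  obtain ⟨K, hK⟩ : ∃ K, K = Nat.find hex := ⟨_, rfl⟩
  have hK1 : δ ≤ U (ε ^ 2) K := by rw [hK]; exact Nat.find_spec hex
  have hK2 : ∀ i < K, U (ε ^ 2) i < δ := by
    intro i hi
    rw [hK] at hi
    exact not_le.1 (Nat.find_min hex hi)
  have hK0 : 1 ≤ K := by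
    rcases Nat.eq_zero_or_pos K with h | h
    · rw [h, U_zero] at hK1; linarith
    · exact h
  have hK3 : U (ε ^ 2) K ≤ 2 * δ := by
    obtain ⟨k, rfl⟩ : ∃ k, K = k + 1 := ⟨K - 1, by omega⟩
    rw [U_succ]
    have h1 := hK2 k (by omega)
    have h2 := U_ge hε2.le k
    have h3 := sq_mono h2 h1.le
    nlinarith
  have hw : ∀ i, 1 ≤ i → i < K → |U (ε ^ 2) i| ≤ 1 / 4 := by
    intro i hi hiK
    have h1 := hK2 i hiK
    have h2 : U (ε ^ 2) 1 ≤ U (ε ^ 2) i := U_mono hε2.le hi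
    rw [U_succ, U_zero] at h2
    rw [abs_le]
    constructor <;> linarith
  have hF := F_orbit hε hε4 hK0 hw
  have hU1 : U (ε ^ 2) 1 = -(1 / 4 - ε ^ 2) := by rw [U_succ, U_zero]; ring
  obtain ⟨x1, hx1⟩ : ∃ x1, x1 = 1 / 4 - ε ^ 2 := ⟨_, rfl⟩
  have hx18 : 1 / 8 ≤ x1 := by rw [hx1]; linarith
  have hx14 : x1 ≤ 1 / 4 := by rw [hx1]; linarith
  have hn := F_neg hε (by linarith : 0 < x1) (by linarith)
  have hR1 : 2 * ε ^ 2 / x1 ^ 3 ≤ 1 := by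
    rw [div_le_one (by positivity)]
    have : (1 / 8 : ℝ) ^ 3 ≤ x1 ^ 3 := pow_le_pow_left₀ (by norm_num) hx18 3
    norm_num at this
    linarith
  have hinv1 : 1 / x1 ≤ 8 := by
    rw [div_le_iff₀ (by linarith)]; linarith
  have hinv2 : 4 ≤ 1 / x1 := by
    rw [le_div_iff₀ (by linarith)]; linarith
  have hlog1 : log x1 ≤ 0 := log_nonpos (by linarith) (by linarith)
  have hlog2 : -3 ≤ log x1 := by
    have h1 : log (1 / 8) ≤ log x1 := log_le_log (by norm_num) hx18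
    have h2 : log (1 / 8 : ℝ) = -(3 * log 2) := by
      rw [show (1 / 8 : ℝ) = (2 ^ 3)⁻¹ by norm_num, log_inv, log_pow]
      push_cast; ring
    have h3 := log_two_lt_d9
    rw [h2] at h1
    linarith
  rw [abs_le] at hn
  have hx0 : 0 < U (ε ^ 2) K := lt_of_lt_of_le hδ hK1
  obtain ⟨hp1, hp2⟩ := F_pos hε hx0 (by linarith)
  have hR : 2 * ε ^ 2 / U (ε ^ 2) K ^ 3 ≤ 1 := by
    rw [div_le_one (by positivity)]
    have : δ ^ 3 ≤ U (ε ^ 2) K ^ 3 := pow_le_pow_left₀ hδ.le hK1 3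
    linarith
  rw [hU1, ← hx1, abs_le] at hF
  push_cast at hF
  have h5 : 1 / U (ε ^ 2) K ≤ 1 / δ := one_div_le_one_div_of_le hδ hK1
  have h6 : 1 / (2 * δ) ≤ 1 / U (ε ^ 2) K := one_div_le_one_div_of_le hx0 hK3
  have h7 : log δ ≤ log (U (ε ^ 2) K) := log_le_log hδ hK1
  have h8 : log (U (ε ^ 2) K) ≤ 0 := log_nonpos hx0.le (by linarith)
  have h9 : log (1 / δ) = -log δ := by rw [one_div, log_inv]
  have h10 : π / ε = π / (2 * ε) + π / (2 * ε) := by field_simp; ring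
  refine ⟨K, hK0, hK2, hK1, hK3, ?_, ?_⟩
  · rw [h9, h10]
    linarith [hF.1, hF.2, hn.1, hn.2]
  · rw [h10]
    linarith [hF.1, hF.2, hn.1, hn.2]

/-- a large orbit -/
noncomputable def W : ℕ → ℝ
  | 0 => 1
  | k + 1 => W k + (W k) ^ 2 + 1

theorem one_le_W (k : ℕ) : 1 ≤ W k := by
  induction k with
  | zero => exact le_rfl
  | succ k ih =>
    show 1 ≤ W k + (W k) ^ 2 + 1
    nlinarith

theorem U_add_le {e : ℝ} (he : 0 ≤ e) (he1 : e ≤ 1) {K : ℕ} (hK : U e K ≤ 1) (i : ℕ) :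
    U e (K + i) ≤ W i := by
  induction i with
  | zero => exact hK
  | succ i ih =>
    show U e (K + i) + (U e (K + i)) ^ 2 + e ≤ W i + (W i) ^ 2 + 1
    have := sq_mono (U_ge he (K + i)) ih
    linarith

/-- the parameter -/
noncomputable def ep (s : ℝ) (N : ℕ) : ℝ := π / (N - s)

theorem tendsto_ep (s : ℝ) : Tendsto (ep s) atTop (𝓝 0) := by
  unfold ep
  apply Tendsto.div_atTop tendsto_const_nhds
  exact tendsto_atTop_add_const_right _ _ tendsto_natCast_atTop_atTop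

theorem ep_pos (s : ℝ) : ∀ᶠ N : ℕ in atTop, 0 < ep s N ∧ π / ep s N = N - s := by
  have h1 : Tendsto (fun N : ℕ => (N : ℝ) - s) atTop atTop :=
    tendsto_atTop_add_const_right _ _ tendsto_natCast_atTop_atTop
  filter_upwards [h1.eventually_gt_atTop 0] with N hN
  unfold ep
  refine ⟨div_pos pi_pos hN, ?_⟩
  rw [div_div_eq_mul_div, mul_div_assoc, mul_div_cancel₀ _ pi_pos.ne']

theorem ep_sq_small (s : ℝ) {c : ℝ} (hc : 0 < c) : ∀ᶠ N : ℕ in atTop, ep s N ^ 2 ≤ c := by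
  have h1 : Tendsto (fun N => ep s N ^ 2) atTop (𝓝 0) := by
    have := (tendsto_ep s).pow 2
    simpa using this
  filter_upwards [h1.eventually (gt_mem_nhds hc)] with N hN
  exact hN.le

/-- boundedness -/
theorem bounded (s : ℝ) : ∃ B : ℝ, 1 ≤ B ∧ ∀ᶠ N : ℕ in atTop, U (ep s N ^ 2) N ≤ B := by
  refine ⟨W ⌈22 + s⌉₊, one_le_W _, ?_⟩
  filter_upwards [ep_pos s, ep_sq_small s (c := (1 / 8) ^ 3 / 2) (by norm_num)] with N h1 h2
  obtain ⟨K, -, -, -, hK3, hK4, -⟩ := passage (δ := 1 / 8) (by norm_num) le_rfl h1.1 h2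
  rw [h1.2] at hK4
  have he : 0 ≤ ep s N ^ 2 := sq_nonneg _
  have hlog : log (1 / (1 / 8 : ℝ)) ≤ 3 := by
    rw [one_div_one_div, show (8 : ℝ) = 2 ^ 3 by norm_num, log_pow]
    have := log_two_lt_d9
    push_cast
    linarith
  have h3 : (N : ℝ) ≤ K + ⌈22 + s⌉₊ := by
    have := Nat.le_ceil (22 + s)
    norm_num at hK4 hlog ⊢
    linarith
  have h4 : N ≤ K + ⌈22 + s⌉₊ := by exact_mod_cast h3
  refine (U_mono he h4).trans (U_add_le he ?_ ?_ _)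
  · norm_num at h2; linarith
  · linarith

/-- the limit is positive -/
theorem lower (s : ℝ) : ∃ δ₁ : ℝ, 0 < δ₁ ∧ δ₁ ≤ 1 / 8 ∧ ∀ δ, 0 < δ → δ ≤ δ₁ →
    ∀ᶠ N : ℕ in atTop, ∃ K : ℕ, 1 ≤ K ∧ K ≤ N ∧ N ≤ K + ⌈1 / δ + log (1 / δ) + 11 + s⌉₊ ∧
      (∀ i < K, U (ep s N ^ 2) i < δ) ∧ δ ≤ U (ep s N ^ 2) K ∧ U (ep s N ^ 2) K ≤ 2 * δ := by
  refine ⟨min (1 / 8) (1 / (2 * (|s| + 6))), by positivity, min_le_left _ _, fun δ hδ hδ1 => ?_⟩
  have hδ8 : δ ≤ 1 / 8 := hδ1.trans (min_le_left _ _)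
  have hδs : δ ≤ 1 / (2 * (|s| + 6)) := hδ1.trans (min_le_right _ _)
  filter_upwards [ep_pos s, ep_sq_small s (c := δ ^ 3 / 2) (by positivity)] with N h1 h2
  obtain ⟨K, hK0, hK2, hK1, hK3, hK4, hK5⟩ := passage hδ hδ8 h1.1 h2
  rw [h1.2] at hK4 hK5
  refine ⟨K, hK0, ?_, ?_, hK2, hK1, hK3⟩
  · have h3 : |s| + 6 ≤ 1 / (2 * δ) := by
      rw [le_div_iff₀ (by positivity)]
      rw [le_div_iff₀ (by positivity)] at hδs
      linarith
    have h4 := neg_abs_le s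
    have h5 : (K : ℝ) ≤ N := by linarith
    exact_mod_cast h5
  · have h3 : (N : ℝ) ≤ K + ⌈1 / δ + log (1 / δ) + 11 + s⌉₊ := by
      have := Nat.le_ceil (1 / δ + log (1 / δ) + 11 + s)
      linarith
    exact_mod_cast h3

/-- the unperturbed orbit -/
theorem U0_neg (k : ℕ) : U 0 k < 0 := by
  induction k with
  | zero => rw [U_zero]; norm_num
  | succ k ih =>
    rw [U_succ, add_zero]
    have := U_ge le_rfl k
    nlinarith

theorem U0_tendsto : Tendsto (U 0) atTop (𝓝 0) := by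
  have hmono := U_mono (le_refl (0 : ℝ))
  have hbdd : BddAbove (range (U 0)) := ⟨0, by rintro _ ⟨k, rfl⟩; exact (U0_neg k).le⟩
  have h1 := tendsto_atTop_ciSup hmono hbdd
  obtain ⟨l, hl⟩ : ∃ l, l = ⨆ k, U 0 k := ⟨_, rfl⟩
  rw [← hl] at h1
  have h2 : Tendsto (fun k => U 0 (k + 1)) atTop (𝓝 l) := (tendsto_add_atTop_iff_nat 1).2 h1
  have h3 : Tendsto (fun k => U 0 (k + 1)) atTop (𝓝 (l + l ^ 2 + 0)) := by
    simp only [U_succ]
    exact ((h1.add (h1.pow 2)).add_const 0)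
  have h4 := tendsto_nhds_unique h2 h3
  have h5 : l = 0 := by
    have : l ^ 2 = 0 := by linarith
    exact pow_eq_zero_iff (two_ne_zero) |>.1 this
  rwa [h5] at h1

theorem exists_m {δ : ℝ} (hδ : 0 < δ) : ∃ m : ℕ, 1 ≤ m ∧ -δ ≤ U 0 m := by
  have h1 := U0_tendsto.eventually (lt_mem_nhds (show -δ < 0 by linarith))
  obtain ⟨m, hm1, hm2⟩ := (h1.and (eventually_ge_atTop 1)).exists
  exact ⟨m, hm2, hm1.le⟩

/-- the incoming phase converges -/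
theorem G_tendsto (s : ℝ) (m : ℕ) : ∃ l : ℝ, Tendsto (fun N : ℕ =>
    F (ep s N) (U (ep s N ^ 2) m) + π / (2 * ep s N)) atTop (𝓝 l) := by
  obtain ⟨a, ha⟩ : ∃ a, a = -U 0 m := ⟨_, rfl⟩
  have ha0 : 0 < a := by rw [ha]; linarith [U0_neg m]
  have ha1 : a ≤ 1 / 2 := by
    rw [ha]; have := U_ge (le_refl (0 : ℝ)) m; linarith
  have hy : Tendsto (fun N : ℕ => -U (ep s N ^ 2) m) atTop (𝓝 a) := by
    have h1 : Tendsto (fun N => ep s N ^ 2) atTop (𝓝 0) := by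
      have := (tendsto_ep s).pow 2
      simpa using this
    have h2 := ((U_continuous m).tendsto 0).comp h1
    rw [ha]
    exact h2.neg
  have hmain : Tendsto (fun N : ℕ => 1 / (-U (ep s N ^ 2) m) + log (-U (ep s N ^ 2) m)) atTop
      (𝓝 (1 / a + log a)) :=
    (tendsto_const_nhds.div hy ha0.ne').add (hy.log ha0.ne')
  refine ⟨1 / a + log a, ?_⟩
  have herr : Tendsto (fun N : ℕ => 2 * ep s N ^ 2 / (-U (ep s N ^ 2) m) ^ 3) atTop (𝓝 0) := by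
    have h1 : Tendsto (fun N => 2 * ep s N ^ 2) atTop (𝓝 0) := by
      have := ((tendsto_ep s).pow 2).const_mul 2
      simpa using this
    have := h1.div (hy.pow 3) (by positivity)
    rw [zero_div] at this
    exact this
  have hdiff : Tendsto (fun N : ℕ => F (ep s N) (U (ep s N ^ 2) m) + π / (2 * ep s N) -
      (1 / (-U (ep s N ^ 2) m) + log (-U (ep s N ^ 2) m))) atTop (𝓝 0) := by
    refine squeeze_zero_norm' ?_ herr
    filter_upwards [ep_pos s, hy.eventually (lt_mem_nhds ha0)] with N h1 h2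
    have h3 := U_ge (sq_nonneg (ep s N)) m
    have h4 := F_neg h1.1 h2 (by linarith)
    rw [neg_neg] at h4
    exact h4
  have := hdiff.add hmain
  simpa using this

theorem inj_aux {δ a b : ℝ} (hδ : 0 < δ) (ha : 0 < a) (hab : a ≤ b) (hb : b ≤ 2 * δ) :
    b - a ≤ 4 * δ ^ 2 * ((-(1 / b) + log b) - (-(1 / a) + log a)) := by
  have h1 : log a ≤ log b := log_le_log ha hab
  have hb0 : 0 < b := lt_of_lt_of_le ha hab
  have h2 : 1 / a - 1 / b = (b - a) / (a * b) := by field_simp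
  have h3 : a * b ≤ 4 * δ ^ 2 := by
    calc a * b ≤ (2 * δ) * (2 * δ) := mul_le_mul (hab.trans hb) hb hb0.le (by linarith)
      _ = 4 * δ ^ 2 := by ring
  have h4 : b - a ≤ 4 * δ ^ 2 * (1 / a - 1 / b) := by
    rw [h2, ← mul_div_assoc, le_div_iff₀ (mul_pos ha hb0), mul_comm (4 * δ ^ 2)]
    exact mul_le_mul_of_nonneg_left h3 (sub_nonneg.2 hab)
  have h5 : 0 ≤ 4 * δ ^ 2 * (log b - log a) := by
    have : 0 ≤ log b - log a := sub_nonneg.2 h1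
    positivity
  have h6 : 4 * δ ^ 2 * ((-(1 / b) + log b) - (-(1 / a) + log a)) =
      4 * δ ^ 2 * (1 / a - 1 / b) + 4 * δ ^ 2 * (log b - log a) := by ring
  rw [h6]
  linarith

theorem dist_aux {δ X X' : ℝ} (hδ : 0 < δ) (hX0 : 0 < X) (hX'0 : 0 < X') (hX : X ≤ 2 * δ)
    (hX' : X' ≤ 2 * δ) (hH : |(-(1 / X) + log X) - (-(1 / X') + log X')| ≤ 33 * δ) :
    |X - X'| ≤ 132 * δ ^ 3 := by
  have hδ2 : 0 ≤ 4 * δ ^ 2 := by positivity
  rw [abs_le] at hH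
  rcases le_total X X' with h | h
  · have h1 := inj_aux hδ hX0 h hX'
    rw [abs_of_nonpos (sub_nonpos.2 h)]
    have h2 := mul_le_mul_of_nonneg_left (show (-(1 / X') + log X') - (-(1 / X) + log X) ≤
      33 * δ by linarith [hH.1]) hδ2
    calc -(X - X') = X' - X := by ring
      _ ≤ _ := h1
      _ ≤ _ := h2
      _ = 132 * δ ^ 3 := by ring
  · have h1 := inj_aux hδ hX'0 h hX
    rw [abs_of_nonneg (sub_nonneg.2 h)]
    have h2 := mul_le_mul_of_nonneg_left (show (-(1 / X) + log X) - (-(1 / X') + log X') ≤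
      33 * δ by linarith [hH.2]) hδ2
    calc X - X' ≤ _ := h1
      _ ≤ _ := h2
      _ = 132 * δ ^ 3 := by ring

/-- the phases at the exit determine the points -/
theorem exit_aux {δ ε ε' X X' : ℝ} (hδ : 0 < δ) (hδ8 : δ ≤ 1 / 8) (hε : 0 < ε) (hε' : 0 < ε')
    (hεδ : ε ^ 2 ≤ δ ^ 4 / 16) (hεδ' : ε' ^ 2 ≤ δ ^ 4 / 16) (hX1 : δ ≤ X) (hX2 : X ≤ 2 * δ)
    (hX'1 : -δ ≤ X') (hX'2 : X' ≤ 2 * δ)
    (hdiff : |(F ε X - π / (2 * ε)) - (F ε' X' - π / (2 * ε'))| ≤ 31 * δ) :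
    δ / 2 ≤ X' ∧ |X - X'| ≤ 132 * δ ^ 3 := by
  have hX0 : 0 < X := lt_of_lt_of_le hδ hX1
  obtain ⟨hp1, hp2⟩ := F_pos hε hX0 (by linarith)
  have hR : 2 * ε ^ 2 / X ^ 3 ≤ δ := by
    rw [div_le_iff₀ (by positivity)]
    have : δ ^ 3 ≤ X ^ 3 := pow_le_pow_left₀ hδ.le hX1 3
    calc 2 * ε ^ 2 ≤ δ * δ ^ 3 := by
          have : δ * δ ^ 3 = δ ^ 4 := by ring
          rw [this]; linarith [pow_pos hδ 4]
      _ ≤ δ * X ^ 3 := mul_le_mul_of_nonneg_left this hδ.le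
  have h34 : δ * (δ / 2) ^ 3 = δ ^ 4 / 8 := by ring
  have hlow : δ / 2 ≤ X' := by
    by_contra hcon
    push Not at hcon
    have h1 := F_mono hε' (by linarith : (-1 : ℝ) ≤ X') hcon.le
    obtain ⟨-, h2⟩ := F_pos hε' (x := δ / 2) (by linarith) (by linarith)
    have hR2 : 2 * ε' ^ 2 / (δ / 2) ^ 3 ≤ δ := by
      rw [div_le_iff₀ (by positivity), h34]
      linarith
    have h4 : 1 / X ≤ 1 / δ := one_div_le_one_div_of_le hδ hX1
    have h5 : log δ ≤ log X := log_le_log hδ hX1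
    have h6 : 1 / (δ / 2) = 2 * (1 / δ) := by field_simp
    have h7 : log (δ / 2) ≤ log δ := log_le_log (by linarith) (by linarith)
    have h8 : 8 ≤ 1 / δ := by rw [le_div_iff₀ hδ]; linarith
    have h9 := (abs_le.1 hdiff).2
    rw [h6] at h2
    linarith
  refine ⟨hlow, ?_⟩
  have hX'0 : 0 < X' := by linarith
  obtain ⟨hp1', hp2'⟩ := F_pos hε' hX'0 (by linarith)
  have hR' : 2 * ε' ^ 2 / X' ^ 3 ≤ δ := by
    rw [div_le_iff₀ (by positivity)]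
    have : (δ / 2) ^ 3 ≤ X' ^ 3 := pow_le_pow_left₀ (by linarith) hlow 3
    calc 2 * ε' ^ 2 ≤ δ * (δ / 2) ^ 3 := by rw [h34]; linarith
      _ ≤ δ * X' ^ 3 := mul_le_mul_of_nonneg_left this hδ.le
  apply dist_aux hδ hX0 hX'0 hX2 hX'2
  have h1 := (abs_le.1 hdiff).1
  have h2 := (abs_le.1 hdiff).2
  rw [abs_le]
  constructor
  · linarith
  · linarith

/-- comparison of two parameters -/
theorem core {s δ ε ε' B : ℝ} {N N' m K K' J : ℕ} (hδ : 0 < δ) (hδ8 : δ ≤ 1 / 8) (hB : 1 ≤ B)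
    (hε : 0 < ε) (hε' : 0 < ε') (hN : π / ε = N - s) (hN' : π / ε' = N' - s)
    (hεδ : ε ^ 2 ≤ δ ^ 4 / 16) (hεδ' : ε' ^ 2 ≤ δ ^ 4 / 16)
    (hK1 : K ≤ N) (hKJ : N ≤ K + J) (hK2 : ∀ i < K, U (ε ^ 2) i < δ) (hK3 : δ ≤ U (ε ^ 2) K)
    (hK4 : U (ε ^ 2) K ≤ 2 * δ)
    (hK1' : K' ≤ N') (hK2' : ∀ i < K', U (ε' ^ 2) i < δ) (hK4' : U (ε' ^ 2) K' ≤ 2 * δ)
    (hKK : N' - K' ≤ N - K) (hm : m ≤ K) (hm' : m + J ≤ N') (ham : -δ ≤ U 0 m)
    (hG : |(F ε (U (ε ^ 2) m) + π / (2 * ε)) - (F ε' (U (ε' ^ 2) m) + π / (2 * ε'))| ≤ δ)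
    (hBN : U (ε ^ 2) N ≤ B) (hBN' : U (ε' ^ 2) N' ≤ B) :
    |U (ε ^ 2) N - U (ε' ^ 2) N'| ≤ 264 * B ^ 2 * δ + B ^ 2 * (2 * J * |ε ^ 2 - ε' ^ 2| / δ ^ 2) := by
  have he : 0 ≤ ε ^ 2 := sq_nonneg _
  have he' : 0 ≤ ε' ^ 2 := sq_nonneg _
  have hδ4 : δ ^ 4 ≤ 1 / 4096 := by
    have : δ ^ 4 ≤ (1 / 8) ^ 4 := pow_le_pow_left₀ hδ.le hδ8 4
    norm_num at this ⊢
    exact this
  have hε4 : ε ≤ 1 / 4 := by nlinarith
  have hε4' : ε' ≤ 1 / 4 := by nlinarith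
  -- the number of steps at the end
  obtain ⟨j, hj⟩ : ∃ j, j = N - K := ⟨_, rfl⟩
  have hjJ : j ≤ J := by omega
  have hNK : N = K + j := by omega
  obtain ⟨k', hk'⟩ : ∃ k', N' = k' + j := ⟨N' - j, by omega⟩
  have hk'K : k' ≤ K' := by omega
  have hmk' : m ≤ k' := by omega
  have hwin : ∀ (e : ℝ), 0 ≤ e → ∀ i, m ≤ i → U e i < δ → |U e i| ≤ 1 / 4 := by
    intro e he i hi h
    have h1 : U 0 m ≤ U e i := (U_mono_e le_rfl he m).trans (U_mono he hi)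
    rw [abs_le]; constructor <;> linarith
  have hF := F_orbit hε hε4 hm fun i hi hiK => hwin _ he i hi (hK2 i hiK)
  have hF' := F_orbit hε' hε4' hmk' fun i hi hik => hwin _ he' i hi (hK2' i (by omega))
  have hXk' : U (ε' ^ 2) k' ≤ 2 * δ := (U_mono he' hk'K).trans hK4'
  have hym : -δ ≤ U (ε ^ 2) m := ham.trans (U_mono_e le_rfl he m)
  have hym' : -δ ≤ U (ε' ^ 2) m := ham.trans (U_mono_e le_rfl he' m)
  obtain ⟨X, hX⟩ : ∃ X, X = U (ε ^ 2) K := ⟨_, rfl⟩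
  obtain ⟨X', hX'⟩ : ∃ X', X' = U (ε' ^ 2) k' := ⟨_, rfl⟩
  rw [← hX] at hF hK3 hK4
  rw [← hX'] at hF' hXk'
  have hX'm : -δ ≤ X' := by rw [hX']; exact hym'.trans (U_mono he' hmk')
  -- the difference of the phases
  have hdiff : |(F ε X - π / (2 * ε)) - (F ε' X' - π / (2 * ε'))| ≤ 31 * δ := by
    have h10 : π / (2 * ε) + π / (2 * ε) = N - s := by rw [← hN]; field_simp; ring
    have h10' : π / (2 * ε') + π / (2 * ε') = N' - s := by rw [← hN']; field_simp; ring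
    have hNc : (N : ℝ) = K + j := by exact_mod_cast hNK
    have hNc' : (N' : ℝ) = k' + j := by exact_mod_cast hk'
    rw [abs_le] at hF hF' hG ⊢
    constructor <;> linarith [hF.1, hF.2, hF'.1, hF'.2, hG.1, hG.2]
  have hX0 : 0 < X := lt_of_lt_of_le hδ hK3
  obtain ⟨hX'2, hXX⟩ := exit_aux hδ hδ8 hε hε' hεδ hεδ' hK3 hK4 hX'm hXk' hdiff
  have hX'0 : 0 < X' := by linarith
  -- the last steps
  have hcomp := compare (x := fun i => U (ε ^ 2) (K + i)) (y := fun i => U (ε' ^ 2) (k' + i))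
    he he' (by simpa [← hX] using hX0) (by simpa [← hX'] using hX'0) (fun i => rfl) (fun i => rfl) j
  obtain ⟨hc1, hc2, hc3⟩ := hcomp
  simp only [add_zero, ← hX, ← hX', ← hNK, ← hk'] at hc1 hc2 hc3
  have hprod : U (ε ^ 2) N * U (ε' ^ 2) N' ≤ B ^ 2 := by
    have hBB : B ^ 2 = B * B := sq B
    rw [hBB]
    exact mul_le_mul hBN hBN' (by linarith) (by linarith)
  have hXX2 : δ ^ 2 / 2 ≤ X * X' := by nlinarith
  have hjJ' : (j : ℝ) ≤ J := by exact_mod_cast hjJ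
  have hQ : (|X - X'| + j * |ε ^ 2 - ε' ^ 2|) / (X * X') ≤
      264 * δ + 2 * J * |ε ^ 2 - ε' ^ 2| / δ ^ 2 := by
    rw [div_le_iff₀ (by positivity)]
    have h1 : (264 * δ + 2 * J * |ε ^ 2 - ε' ^ 2| / δ ^ 2) * (δ ^ 2 / 2) =
        132 * δ ^ 3 + J * |ε ^ 2 - ε' ^ 2| := by
      field_simp
      ring
    have h2 : (j : ℝ) * |ε ^ 2 - ε' ^ 2| ≤ J * |ε ^ 2 - ε' ^ 2| :=
      mul_le_mul_of_nonneg_right hjJ' (abs_nonneg _)
    calc |X - X'| + j * |ε ^ 2 - ε' ^ 2| ≤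
          (264 * δ + 2 * J * |ε ^ 2 - ε' ^ 2| / δ ^ 2) * (δ ^ 2 / 2) := by rw [h1]; linarith
      _ ≤ _ := mul_le_mul_of_nonneg_left hXX2 (by positivity)
  have hQ0 : 0 ≤ (|X - X'| + j * |ε ^ 2 - ε' ^ 2|) / (X * X') := by positivity
  calc |U (ε ^ 2) N - U (ε' ^ 2) N'| ≤ _ := hc3
    _ ≤ B ^ 2 * (264 * δ + 2 * J * |ε ^ 2 - ε' ^ 2| / δ ^ 2) :=
        mul_le_mul hprod hQ hQ0 (by positivity)
    _ = _ := by ring

/-- the real limit -/
theorem real_limit (s : ℝ) : ∃ l : ℝ, 0 < l ∧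
    Tendsto (fun N : ℕ => U (ep s N ^ 2) N) atTop (𝓝 l) := by
  obtain ⟨B, hB1, hB⟩ := bounded s
  obtain ⟨δ₁, hδ₁, hδ₁8, hlow⟩ := lower s
  have hC : CauchySeq (fun N : ℕ => U (ep s N ^ 2) N) := by
    rw [Metric.cauchySeq_iff]
    intro η hη
    obtain ⟨δ, hδd⟩ : ∃ δ, δ = min δ₁ (η / (4 * (265 * B ^ 2))) := ⟨_, rfl⟩
    have hδ : 0 < δ := by rw [hδd]; positivity
    have hδ1 : δ ≤ δ₁ := by rw [hδd]; exact min_le_left _ _
    have hδη : 265 * B ^ 2 * δ ≤ η / 4 := by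
      have : δ ≤ η / (4 * (265 * B ^ 2)) := by rw [hδd]; exact min_le_right _ _
      rw [le_div_iff₀ (by positivity)] at this
      linarith
    obtain ⟨m, hm1, ham⟩ := exists_m hδ
    obtain ⟨g, hg⟩ := G_tendsto s m
    obtain ⟨J, hJ⟩ : ∃ J, J = ⌈1 / δ + log (1 / δ) + 11 + s⌉₊ := ⟨_, rfl⟩
    obtain ⟨c, hc⟩ : ∃ c, c = δ ^ 3 / (4 * (J + 1)) := ⟨_, rfl⟩
    have hc0 : 0 < c := by rw [hc]; positivity
    have hev : ∀ᶠ N : ℕ in atTop, (0 < ep s N ∧ π / ep s N = N - s) ∧ ep s N ^ 2 ≤ δ ^ 4 / 16 ∧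
        ep s N ^ 2 ≤ c ∧ U (ep s N ^ 2) N ≤ B ∧ m + J ≤ N ∧
        |F (ep s N) (U (ep s N ^ 2) m) + π / (2 * ep s N) - g| ≤ δ / 2 ∧
        ∃ K : ℕ, 1 ≤ K ∧ K ≤ N ∧ N ≤ K + J ∧
          (∀ i < K, U (ep s N ^ 2) i < δ) ∧ δ ≤ U (ep s N ^ 2) K ∧ U (ep s N ^ 2) K ≤ 2 * δ := by
      have hgg : ∀ᶠ N : ℕ in atTop,
          |F (ep s N) (U (ep s N ^ 2) m) + π / (2 * ep s N) - g| ≤ δ / 2 := by
        have := hg.eventually (Metric.closedBall_mem_nhds g (by linarith : 0 < δ / 2))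
        filter_upwards [this] with N hN
        exact hN
      filter_upwards [ep_pos s, ep_sq_small s (c := δ ^ 4 / 16) (by positivity),
        ep_sq_small s hc0, hB, eventually_ge_atTop (m + J), hgg, hlow δ hδ hδ1] with N h1 h2 h3 h4
        h5 h6 h7
      rw [← hJ] at h7
      exact ⟨h1, h2, h3, h4, h5, h6, h7⟩
    obtain ⟨N0, hN0⟩ := eventually_atTop.1 hev
    have hpair : ∀ N N' : ℕ, N0 ≤ N → N0 ≤ N' →
        (∀ K K' : ℕ, K ≤ N → N ≤ K + J → (∀ i < K, U (ep s N ^ 2) i < δ) →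
          δ ≤ U (ep s N ^ 2) K → U (ep s N ^ 2) K ≤ 2 * δ → K' ≤ N' →
          (∀ i < K', U (ep s N' ^ 2) i < δ) → U (ep s N' ^ 2) K' ≤ 2 * δ → N' - K' ≤ N - K →
          |U (ep s N ^ 2) N - U (ep s N' ^ 2) N'| ≤ η / 4) := by
      intro N N' hN hN' K K' a1 a2 a3 a4 a5 b1 b3 b5 hKK
      obtain ⟨h1, h2, h3, h4, h5, h6, -⟩ := hN0 N hN
      obtain ⟨h1', h2', h3', h4', h5', h6', -⟩ := hN0 N' hN'
      have hG : |(F (ep s N) (U (ep s N ^ 2) m) + π / (2 * ep s N)) -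
          (F (ep s N') (U (ep s N' ^ 2) m) + π / (2 * ep s N'))| ≤ δ := by
        rw [abs_le] at h6 h6' ⊢
        constructor <;> linarith [h6.1, h6.2, h6'.1, h6'.2]
      have hmK : m ≤ K := by omega
      have := core (s := s) (J := J) hδ (hδ1.trans hδ₁8) hB1 h1.1 h1'.1 h1.2 h1'.2 h2 h2' a1 a2 a3 a4 a5
        b1 b3 b5 hKK hmK (by omega) ham hG h4 h4'
      refine this.trans ?_
      have hd : |ep s N ^ 2 - ep s N' ^ 2| ≤ c := by
        rw [abs_le]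
        constructor <;> nlinarith [sq_nonneg (ep s N), sq_nonneg (ep s N')]
      have hJd : 2 * J * |ep s N ^ 2 - ep s N' ^ 2| / δ ^ 2 ≤ δ := by
        rw [div_le_iff₀ (by positivity)]
        calc 2 * J * |ep s N ^ 2 - ep s N' ^ 2| ≤ 2 * J * c := by gcongr
          _ ≤ 2 * (J + 1) * c := by nlinarith
          _ = δ ^ 3 / 2 := by rw [hc]; field_simp; ring
          _ ≤ δ * δ ^ 2 := by nlinarith [pow_pos hδ 3]
      have hB2 : 0 ≤ B ^ 2 := sq_nonneg _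
      have := mul_le_mul_of_nonneg_left hJd hB2
      linarith
    refine ⟨N0, fun N hN N' hN' => ?_⟩
    obtain ⟨-, -, -, -, -, -, K, k1, k2, k3, k4, k5, k6⟩ := hN0 N hN
    obtain ⟨-, -, -, -, -, -, K', k1', k2', k3', k4', k5', k6'⟩ := hN0 N' hN'
    rw [Real.dist_eq]
    rcases le_total (N' - K') (N - K) with h | h
    · have := hpair N N' hN hN' K K' k2 k3 k4 k5 k6 k2' k4' k6' h
      linarith
    · have := hpair N' N hN' hN K' K k2' k3' k4' k5' k6' k2 k4 k6 h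
      rw [abs_sub_comm]
      linarith
  obtain ⟨l, hl⟩ := cauchySeq_tendsto_of_complete hC
  refine ⟨l, lt_of_lt_of_le hδ₁ (ge_of_tendsto hl ?_), hl⟩
  filter_upwards [hlow δ₁ hδ₁ le_rfl] with N hN
  obtain ⟨K, -, hK2, -, -, hK5, -⟩ := hN
  exact hK5.trans (U_mono (sq_nonneg _) hK2)

end Pool.Agent.T6.H48.Cusp
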