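import Mathlib

set_option autoImplicit false

/-!
# The real Lavaurs limit at the cusp of the Mandelbrot set

`U e` is the orbit of `-1/2` under `u ↦ u + u ^ 2 + e`, the orbit of the critical point of
`z ↦ z ^ 2 + 1 / 4 + e` in the coordinate `u = z - 1 / 2`. For every real `s` the numbers
`U ((π / (N - s)) ^ 2) N` converge to a positive number.
-/

namespace Pool.Agent.T6.H48.Cusp

open Filter Topology Set Real

/-- the orbit of `-1/2` under `u ↦ u + u ^ 2 + e` -/
noncomputable def U (e : ℝ) : ℕ → ℝ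
  | 0 => -1 / 2
  | k + 1 => U e k + (U e k) ^ 2 + e

theorem U_zero (e : ℝ) : U e 0 = -1 / 2 := rfl

theorem U_succ (e : ℝ) (k : ℕ) : U e (k + 1) = U e k + (U e k) ^ 2 + e := rfl

theorem U_le_succ {e : ℝ} (he : 0 ≤ e) (k : ℕ) : U e k ≤ U e (k + 1) := by
  rw [U_succ]
  nlinarith [sq_nonneg (U e k)]

theorem U_mono {e : ℝ} (he : 0 ≤ e) : Monotone (U e) := monotone_nat_of_le_succ (U_le_succ he)

theorem U_ge {e : ℝ} (he : 0 ≤ e) (k : ℕ) : -1 / 2 ≤ U e k := by
  have := U_mono he (Nat.zero_le k)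
  rwa [U_zero] at this

theorem U_mono_e {e e' : ℝ} (he : 0 ≤ e) (h : e ≤ e') (k : ℕ) : U e k ≤ U e' k := by
  induction k with
  | zero => exact le_rfl
  | succ k ih =>
    rw [U_succ, U_succ]
    have h1 := U_ge he k
    nlinarith

theorem U_continuous (k : ℕ) : Continuous fun e => U e k := by
  induction k with
  | zero => exact continuous_const
  | succ k ih =>
    simp only [U_succ]
    fun_prop

theorem U_lin {e : ℝ} (he : 0 ≤ e) (k : ℕ) : -1 / 2 + k * e ≤ U e k := by
  induction k with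
  | zero => simp [U_zero]
  | succ k ih =>
    rw [U_succ]
    push_cast
    nlinarith [sq_nonneg (U e k)]

/-- the approximate Fatou coordinate -/
noncomputable def F (ε u : ℝ) : ℝ := arctan (u / ε) / ε + log (u ^ 2 + ε ^ 2) / 2

theorem hasDerivAt_F {ε : ℝ} (hε : 0 < ε) (u : ℝ) :
    HasDerivAt (F ε) ((1 + u) / (u ^ 2 + ε ^ 2)) u := by
  have hpos : 0 < u ^ 2 + ε ^ 2 := by positivity
  have h1 : HasDerivAt (fun u : ℝ => arctan (u / ε) / ε)
      ((1 / (1 + (u / ε) ^ 2) * (1 / ε)) / ε) u := by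
    have h2 : HasDerivAt (fun u : ℝ => u / ε) (1 / ε) u := (hasDerivAt_id u).div_const ε
    exact (h2.arctan).div_const ε
  have h3 : HasDerivAt (fun u : ℝ => log (u ^ 2 + ε ^ 2) / 2)
      ((2 * u / (u ^ 2 + ε ^ 2)) / 2) u := by
    have h4 : HasDerivAt (fun u : ℝ => u ^ 2 + ε ^ 2) (2 * u) u := by
      have := (hasDerivAt_pow 2 u).add_const (ε ^ 2)
      simpa using this
    exact (h4.log hpos.ne').div_const 2
  have h5 := h1.add h3
  refine h5.congr_deriv ?_
  field_simp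
  ring

theorem F_continuous {ε : ℝ} (hε : 0 < ε) : Continuous (F ε) :=
  continuous_iff_continuousAt.2 fun u => (hasDerivAt_F hε u).continuousAt

theorem F_mono {ε : ℝ} (hε : 0 < ε) {x y : ℝ} (hx : -1 ≤ x) (hxy : x ≤ y) : F ε x ≤ F ε y := by
  have h1 : MonotoneOn (F ε) (Ici (-1)) := by
    refine monotoneOn_of_deriv_nonneg (convex_Ici _) (F_continuous hε).continuousOn ?_ ?_
    · intro u _
      exact (hasDerivAt_F hε u).differentiableAt.differentiableWithinAt
    · intro u hu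
      rw [interior_Ici] at hu
      rw [(hasDerivAt_F hε u).deriv]
      have : (-1 : ℝ) < u := hu
      apply div_nonneg
      · linarith
      · positivity
  exact h1 hx (le_trans hx hxy) hxy

/-- one step changes `F` by `1`, up to a multiple of the step -/
theorem F_step {ε u : ℝ} (hε : 0 < ε) (hε4 : ε ≤ 1 / 4) (hu : |u| ≤ 1 / 4) :
    |F ε (u + u ^ 2 + ε ^ 2) - F ε u - 1| ≤ 5 * (u ^ 2 + ε ^ 2) := by
  obtain ⟨v, hv⟩ : ∃ v, v = u ^ 2 + ε ^ 2 := ⟨_, rfl⟩
  have hv0 : 0 < v := by rw [hv]; positivity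
  obtain ⟨hu1, hu2⟩ := abs_le.1 hu
  have hv1 : v ≤ 1 / 4 := by rw [hv]; nlinarith
  have huv : u ^ 2 ≤ v := by rw [hv]; nlinarith
  have hg : ∀ x ∈ Icc (0 : ℝ) 1, HasDerivWithinAt
      (fun x : ℝ => F ε (u + x * v) - x - u * (x - x ^ 2))
      ((1 + (u + x * v)) / ((u + x * v) ^ 2 + ε ^ 2) * v - 1 - u * (1 - 2 * x)) (Icc 0 1) x := by
    intro x _
    have h1 : HasDerivAt (fun x : ℝ => u + x * v) v x := by
      have := ((hasDerivAt_id x).mul_const v).const_add u
      simpa using this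
    have h2 := (hasDerivAt_F hε (u + x * v)).comp x h1
    have h3 : HasDerivAt (fun x : ℝ => u * (x - x ^ 2)) (u * (1 - 2 * x)) x := by
      have h4 : HasDerivAt (fun x : ℝ => x - x ^ 2) (1 - 2 * x) x := by
        have := (hasDerivAt_id' x).fun_sub (hasDerivAt_pow 2 x)
        simpa using this
      exact h4.const_mul u
    have h5 := (h2.fun_sub (hasDerivAt_id' x)).fun_sub h3
    exact h5.hasDerivWithinAt
  have hb : ∀ x ∈ Icc (0 : ℝ) 1,
      ‖(1 + (u + x * v)) / ((u + x * v) ^ 2 + ε ^ 2) * v - 1 - u * (1 - 2 * x)‖ ≤ 5 * v := by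
    rintro x ⟨hx0, hx1⟩
    obtain ⟨w, hw⟩ : ∃ w, w = 1 + 2 * u * x + x ^ 2 * v := ⟨_, rfl⟩
    have hw2 : 1 / 2 ≤ w := by
      rw [hw]
      have : -(1 / 4) ≤ u * x := by nlinarith
      nlinarith [sq_nonneg x]
    have hD : (u + x * v) ^ 2 + ε ^ 2 = v * w := by
      rw [hw]
      have : ε ^ 2 = v - u ^ 2 := by rw [hv]; ring
      rw [this]; ring
    have hnum : (1 + (u + x * v)) / ((u + x * v) ^ 2 + ε ^ 2) * v - 1 - u * (1 - 2 * x) =
        (x * v - x ^ 2 * v - u * (1 - 2 * x) * (2 * u * x + x ^ 2 * v)) / w := by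
      rw [hD]
      have hw0 : w ≠ 0 := by linarith
      field_simp
      rw [hw]
      ring
    rw [hnum, Real.norm_eq_abs, abs_div, abs_of_pos (by linarith : 0 < w), div_le_iff₀ (by linarith)]
    have hA : |x * v - x ^ 2 * v| ≤ v / 4 := by
      have h0 : x * v - x ^ 2 * v = x * (1 - x) * v := by ring
      have h1 : 0 ≤ x * (1 - x) := mul_nonneg hx0 (by linarith)
      rw [h0, abs_of_nonneg (mul_nonneg h1 hv0.le)]
      nlinarith [sq_nonneg (x - 1 / 2)]
    have hB : |u * (1 - 2 * x) * (2 * u * x + x ^ 2 * v)| ≤ 2 * v + v / 4 := by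
      rw [abs_mul, abs_mul]
      have h1 : |1 - 2 * x| ≤ 1 := by rw [abs_le]; constructor <;> linarith
      have h2 : |2 * u * x + x ^ 2 * v| ≤ 2 * |u| + v := by
        refine (abs_add_le _ _).trans ?_
        rw [abs_mul, abs_mul, abs_two, abs_of_nonneg hx0, abs_of_nonneg (by positivity : 0 ≤ x ^ 2 * v)]
        have h3 : |u| * x ≤ |u| := mul_le_of_le_one_right (abs_nonneg u) hx1
        have h4 : x ^ 2 * v ≤ v := by
          have : x ^ 2 ≤ 1 := by nlinarith
          nlinarith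
        linarith
      have h5 : |u| * |1 - 2 * x| ≤ |u| := mul_le_of_le_one_right (abs_nonneg u) h1
      calc |u| * |1 - 2 * x| * |2 * u * x + x ^ 2 * v| ≤ |u| * (2 * |u| + v) := by
            apply mul_le_mul h5 h2 (abs_nonneg _) (abs_nonneg _)
        _ = 2 * u ^ 2 + |u| * v := by
            have : |u| * |u| = u ^ 2 := by rw [← sq, sq_abs]
            linear_combination 2 * this
        _ ≤ 2 * v + v / 4 := by nlinarith
    have hC := abs_sub (x * v - x ^ 2 * v) (u * (1 - 2 * x) * (2 * u * x + x ^ 2 * v))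
    nlinarith
  have hmv := Convex.norm_image_sub_le_of_norm_hasDerivWithin_le hg hb (convex_Icc 0 1)
    (left_mem_Icc.2 zero_le_one) (right_mem_Icc.2 zero_le_one)
  simp only [Real.norm_eq_abs] at hmv
  have e1 : F ε (u + 1 * v) - 1 - u * (1 - 1 ^ 2) - (F ε (u + 0 * v) - 0 - u * (0 - 0 ^ 2)) =
      F ε (u + u ^ 2 + ε ^ 2) - F ε u - 1 := by
    rw [hv]
    have : u + 1 * (u ^ 2 + ε ^ 2) = u + u ^ 2 + ε ^ 2 := by ring
    rw [this, zero_mul, add_zero]
    ring
  rw [e1] at hmv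
  rw [← hv]
  simpa using hmv

/-- the number of steps of an orbit segment -/
theorem F_orbit {ε : ℝ} (hε : 0 < ε) (hε4 : ε ≤ 1 / 4) {m k : ℕ} (hmk : m ≤ k)
    (h : ∀ i, m ≤ i → i < k → |U (ε ^ 2) i| ≤ 1 / 4) :
    |F ε (U (ε ^ 2) k) - F ε (U (ε ^ 2) m) - ((k : ℝ) - m)| ≤
      5 * (U (ε ^ 2) k - U (ε ^ 2) m) := by
  induction k, hmk using Nat.le_induction with
  | base => simp
  | succ k hk ih =>
    have h1 := ih fun i hi hik => h i hi (by omega)
    have h2 := F_step hε hε4 (h k hk (by omega))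
    rw [← U_succ (ε ^ 2) k] at h2
    have h3 : U (ε ^ 2) (k + 1) - U (ε ^ 2) k = (U (ε ^ 2) k) ^ 2 + ε ^ 2 := by
      rw [U_succ]; ring
    rw [← h3] at h2
    push_cast
    rw [abs_le] at h1 h2 ⊢
    constructor <;> linarith [h1.1, h1.2, h2.1, h2.2]

theorem arctan_bounds {y : ℝ} (hy : 0 ≤ y) : arctan y ≤ y ∧ y - y ^ 3 ≤ arctan y := by
  constructor
  · have h1 : MonotoneOn (fun y : ℝ => y - arctan y) (Ici 0) := by
      have hd : ∀ u : ℝ, HasDerivAt (fun y : ℝ => y - arctan y) (1 - 1 / (1 + u ^ 2)) u :=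
        fun u => (hasDerivAt_id' u).fun_sub (hasDerivAt_arctan u)
      refine monotoneOn_of_deriv_nonneg (convex_Ici _) (by fun_prop) ?_ ?_
      · intro u _
        exact (hd u).differentiableAt.differentiableWithinAt
      · intro u _
        rw [(hd u).deriv]
        have : 1 / (1 + u ^ 2) ≤ 1 := by
          rw [div_le_one (by positivity)]; nlinarith [sq_nonneg u]
        linarith
    have := h1 (mem_Ici.2 le_rfl) (mem_Ici.2 hy) hy
    simp only [arctan_zero, sub_zero] at this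
    linarith
  · have h1 : MonotoneOn (fun y : ℝ => arctan y - (y - y ^ 3)) (Ici 0) := by
      have hd : ∀ u : ℝ, HasDerivAt (fun y : ℝ => arctan y - (y - y ^ 3))
          (1 / (1 + u ^ 2) - (1 - 3 * u ^ 2)) u := by
        intro u
        have h2 : HasDerivAt (fun y : ℝ => y - y ^ 3) (1 - 3 * u ^ 2) u := by
          have := (hasDerivAt_id' u).fun_sub (hasDerivAt_pow 3 u)
          simpa using this
        exact (hasDerivAt_arctan u).fun_sub h2
      refine monotoneOn_of_deriv_nonneg (convex_Ici _) (by fun_prop) ?_ ?_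
      · intro u _
        exact (hd u).differentiableAt.differentiableWithinAt
      · intro u _
        rw [(hd u).deriv]
        have hp : (0 : ℝ) < 1 + u ^ 2 := by positivity
        have : 1 / (1 + u ^ 2) - (1 - 3 * u ^ 2) = (2 * u ^ 2 + 3 * u ^ 4) / (1 + u ^ 2) := by
          field_simp
          ring
        rw [this]
        positivity
    have := h1 (mem_Ici.2 le_rfl) (mem_Ici.2 hy) hy
    simp only [arctan_zero] at this
    norm_num at this
    linarith

/-- the behaviour of `F` on the right side -/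
theorem F_pos {ε x : ℝ} (hε : 0 < ε) (hx : 0 < x) (hx1 : x ≤ 1) :
    0 ≤ F ε x - π / (2 * ε) - (-(1 / x) + log x) ∧
      F ε x - π / (2 * ε) - (-(1 / x) + log x) ≤ 2 * ε ^ 2 / x ^ 3 := by
  have h1 : arctan (x / ε) = π / 2 - arctan (ε / x) := by
    have := arctan_inv_of_pos (x := ε / x) (by positivity)
    rwa [inv_div] at this
  obtain ⟨h2, h3⟩ := arctan_bounds (y := ε / x) (by positivity)
  have h4 : log (x ^ 2 + ε ^ 2) / 2 = log x + log (1 + (ε / x) ^ 2) / 2 := by
    have : x ^ 2 + ε ^ 2 = x ^ 2 * (1 + (ε / x) ^ 2) := by field_simp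
    rw [this, log_mul (by positivity) (by positivity), log_pow]
    push_cast; ring
  have h5 : 0 ≤ log (1 + (ε / x) ^ 2) := log_nonneg (by nlinarith [sq_nonneg (ε / x)])
  have h6 : log (1 + (ε / x) ^ 2) ≤ (ε / x) ^ 2 := by
    have := log_le_sub_one_of_pos (show 0 < 1 + (ε / x) ^ 2 by positivity)
    linarith
  have h7 : F ε x - π / (2 * ε) - (-(1 / x) + log x) =
      (ε / x - arctan (ε / x)) / ε + log (1 + (ε / x) ^ 2) / 2 := by
    unfold F
    rw [h1, h4]
    field_simp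
    ring
  rw [h7]
  constructor
  · have : 0 ≤ (ε / x - arctan (ε / x)) / ε := div_nonneg (by linarith) hε.le
    linarith
  · have h8 : (ε / x - arctan (ε / x)) / ε ≤ ε ^ 2 / x ^ 3 := by
      rw [div_le_iff₀ hε]
      have : ε ^ 2 / x ^ 3 * ε = (ε / x) ^ 3 := by field_simp
      rw [this]
      linarith
    have h9 : (ε / x) ^ 2 ≤ ε ^ 2 / x ^ 3 := by
      rw [div_pow]
      apply div_le_div_of_nonneg_left (by positivity) (by positivity)
      calc x ^ 3 = x ^ 2 * x := by ring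
        _ ≤ x ^ 2 * 1 := by apply mul_le_mul_of_nonneg_left hx1 (by positivity)
        _ = x ^ 2 := mul_one _
    have h10 : 2 * ε ^ 2 / x ^ 3 = ε ^ 2 / x ^ 3 + ε ^ 2 / x ^ 3 := by ring
    rw [h10]
    have h11 : 0 ≤ ε ^ 2 / x ^ 3 := by positivity
    linarith

/-- the behaviour of `F` on the left side -/
theorem F_neg {ε x : ℝ} (hε : 0 < ε) (hx : 0 < x) (hx1 : x ≤ 1) :
    |F ε (-x) + π / (2 * ε) - (1 / x + log x)| ≤ 2 * ε ^ 2 / x ^ 3 := by
  obtain ⟨h2, h3⟩ := arctan_bounds (y := ε / x) (by positivity)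
  have h1 : arctan (x / ε) = π / 2 - arctan (ε / x) := by
    have := arctan_inv_of_pos (x := ε / x) (by positivity)
    rwa [inv_div] at this
  have h4 : log (x ^ 2 + ε ^ 2) / 2 = log x + log (1 + (ε / x) ^ 2) / 2 := by
    have : x ^ 2 + ε ^ 2 = x ^ 2 * (1 + (ε / x) ^ 2) := by field_simp
    rw [this, log_mul (by positivity) (by positivity), log_pow]
    push_cast; ring
  have h5 : 0 ≤ log (1 + (ε / x) ^ 2) := log_nonneg (by nlinarith [sq_nonneg (ε / x)])
  have h6 : log (1 + (ε / x) ^ 2) ≤ (ε / x) ^ 2 := by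
    have := log_le_sub_one_of_pos (show 0 < 1 + (ε / x) ^ 2 by positivity)
    linarith
  have h7 : F ε (-x) + π / (2 * ε) - (1 / x + log x) =
      -((ε / x - arctan (ε / x)) / ε) + log (1 + (ε / x) ^ 2) / 2 := by
    unfold F
    rw [neg_div, arctan_neg, h1, neg_sq, h4]
    field_simp
    ring
  rw [h7]
  have h8 : (ε / x - arctan (ε / x)) / ε ≤ ε ^ 2 / x ^ 3 := by
    rw [div_le_iff₀ hε]
    have : ε ^ 2 / x ^ 3 * ε = (ε / x) ^ 3 := by field_simp
    rw [this]
    linarith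
  have h80 : 0 ≤ (ε / x - arctan (ε / x)) / ε := div_nonneg (by linarith) hε.le
  have h9 : (ε / x) ^ 2 ≤ ε ^ 2 / x ^ 3 := by
    rw [div_pow]
    apply div_le_div_of_nonneg_left (by positivity) (by positivity)
    calc x ^ 3 = x ^ 2 * x := by ring
      _ ≤ x ^ 2 * 1 := by apply mul_le_mul_of_nonneg_left hx1 (by positivity)
      _ = x ^ 2 := mul_one _
  have h10 : 2 * ε ^ 2 / x ^ 3 = ε ^ 2 / x ^ 3 + ε ^ 2 / x ^ 3 := by ring
  rw [h10, abs_le]
  have h11 : 0 ≤ ε ^ 2 / x ^ 3 := by positivity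
  constructor <;> linarith

/-- comparison of two orbits on the right side -/
theorem compare {x y : ℕ → ℝ} {e e' : ℝ} (he : 0 ≤ e) (he' : 0 ≤ e') (hx0 : 0 < x 0)
    (hy0 : 0 < y 0) (hx : ∀ i, x (i + 1) = x i + (x i) ^ 2 + e)
    (hy : ∀ i, y (i + 1) = y i + (y i) ^ 2 + e') (j : ℕ) :
    x 0 ≤ x j ∧ y 0 ≤ y j ∧
      |x j - y j| ≤ x j * y j * ((|x 0 - y 0| + j * |e - e'|) / (x 0 * y 0)) := by
  induction j with
  | zero =>
    refine ⟨le_rfl, le_rfl, ?_⟩
    rw [Nat.cast_zero, zero_mul, add_zero, mul_div_cancel₀ _ (by positivity)]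
  | succ j ih =>
    obtain ⟨h1, h2, h3⟩ := ih
    have hxj : 0 < x j := lt_of_lt_of_le hx0 h1
    have hyj : 0 < y j := lt_of_lt_of_le hy0 h2
    have hx1 : x 0 ≤ x (j + 1) := by rw [hx]; nlinarith
    have hy1 : y 0 ≤ y (j + 1) := by rw [hy]; nlinarith
    refine ⟨hx1, hy1, ?_⟩
    obtain ⟨Q, hQ⟩ : ∃ Q, Q = (|x 0 - y 0| + j * |e - e'|) / (x 0 * y 0) := ⟨_, rfl⟩
    have hQ0 : 0 ≤ Q := by rw [hQ]; positivity
    rw [← hQ] at h3
    have h4 : |x (j + 1) - y (j + 1)| ≤ |x j - y j| * (1 + x j + y j) + |e - e'| := by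
      have : x (j + 1) - y (j + 1) = (x j - y j) * (1 + x j + y j) + (e - e') := by
        rw [hx, hy]; ring
      rw [this]
      refine (abs_add_le _ _).trans ?_
      rw [abs_mul, abs_of_pos (by positivity : 0 < 1 + x j + y j)]
    have h5 : x j * y j * (1 + x j + y j) ≤ x (j + 1) * y (j + 1) := by
      have h6 : x j * (1 + x j) ≤ x (j + 1) := by rw [hx]; nlinarith
      have h7 : y j * (1 + y j) ≤ y (j + 1) := by rw [hy]; nlinarith
      calc x j * y j * (1 + x j + y j) ≤ (x j * (1 + x j)) * (y j * (1 + y j)) := by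
            have : 0 ≤ x j * y j * (x j * y j) := by positivity
            nlinarith
        _ ≤ x (j + 1) * y (j + 1) := mul_le_mul h6 h7 (by positivity) (by
            exact le_trans (by positivity) h6)
    have h8 : |e - e'| ≤ x (j + 1) * y (j + 1) * (|e - e'| / (x 0 * y 0)) := by
      have h9 : x 0 * y 0 ≤ x (j + 1) * y (j + 1) :=
        mul_le_mul hx1 hy1 hy0.le (by linarith)
      rw [← mul_div_assoc, le_div_iff₀ (by positivity)]
      calc |e - e'| * (x 0 * y 0) ≤ |e - e'| * (x (j + 1) * y (j + 1)) :=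
            mul_le_mul_of_nonneg_left h9 (abs_nonneg _)
        _ = x (j + 1) * y (j + 1) * |e - e'| := mul_comm _ _
    have h10 : (|x 0 - y 0| + ((j + 1 : ℕ) : ℝ) * |e - e'|) / (x 0 * y 0) =
        Q + |e - e'| / (x 0 * y 0) := by
      rw [hQ, ← add_div]
      push_cast
      ring
    rw [h10, mul_add]
    calc |x (j + 1) - y (j + 1)| ≤ |x j - y j| * (1 + x j + y j) + |e - e'| := h4
      _ ≤ x j * y j * Q * (1 + x j + y j) + |e - e'| := by
          have := mul_le_mul_of_nonneg_right h3 (by positivity : 0 ≤ 1 + x j + y j)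
          linarith
      _ = x j * y j * (1 + x j + y j) * Q + |e - e'| := by ring
      _ ≤ x (j + 1) * y (j + 1) * Q + x (j + 1) * y (j + 1) * (|e - e'| / (x 0 * y 0)) :=
          add_le_add (mul_le_mul_of_nonneg_right h5 hQ0) h8

end Pool.Agent.T6.H48.Cusp
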